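import Pool.Agent.Helper54.SR.Defs
import Pool.Agent.Helper33.SR.FixedUnit
import Pool.Agent.Helper34.SR.Theta
import Pool.Agent.Helper4.SR.Unif
import Pool.Agent.Helper43.SR.L2b

/-!
# Local Kummer theory (SR-L5, SR-L6)
-/

set_option autoImplicit false
set_option linter.unusedVariables false
set_option linter.unusedSectionVars false
open scoped Pointwise
open Polynomial Pool.Agent.Helper54.PW

namespace Pool.Agent.Helper54.SR

section h97aux

variable {k L : Type} [Field k] [Field L] [Algebra (RatFunc k) L]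

private lemma h97_un_iff (A : ValuationSubring L) (x : L) : Un A x ↔ A.valuation x = 1 := by
  unfold Un
  constructor
  · rintro ⟨h0, h1, h2⟩
    have h3 := (A.valuation_le_one_iff x).2 h1
    have h4 := (A.valuation_le_one_iff x⁻¹).2 h2
    rw [map_inv₀] at h4
    have h5 : A.valuation x ≠ 0 := (A.valuation.ne_zero_iff).2 h0
    refine le_antisymm h3 ?_
    have h6 : A.valuation x * (A.valuation x)⁻¹ ≤ A.valuation x * 1 :=
      mul_le_mul' le_rfl h4
    rwa [mul_inv_cancel₀ h5, mul_one] at h6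
  · intro h
    have h0 : x ≠ 0 := by
      intro h0
      rw [h0, map_zero] at h
      exact zero_ne_one h
    refine ⟨h0, (A.valuation_le_one_iff x).1 h.le, (A.valuation_le_one_iff x⁻¹).1 ?_⟩
    rw [map_inv₀, h, inv_one]

private lemma h97_co_zero (A : ValuationSubring L) (hA : IsPl k A) (c : k)
    (h : co k L c ∈ A.nonunits) : c = 0 := by
  by_contra hc
  have h1 := (ValuationSubring.mem_nonunits_iff (A := A)).1 h
  have h2 : co k L c * co k L c⁻¹ = 1 := by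
    unfold co
    rw [← map_mul, ← map_mul, mul_inv_cancel₀ hc, map_one, map_one]
  have h3 := (A.valuation_le_one_iff _).2 (hA.2 c⁻¹)
  have h4 : A.valuation (co k L c) * A.valuation (co k L c⁻¹) = 1 := by
    rw [← map_mul, h2, map_one]
  have h5 : A.valuation (co k L c) * A.valuation (co k L c⁻¹) ≤ A.valuation (co k L c) * 1 :=
    mul_le_mul' le_rfl h3
  rw [h4, mul_one] at h5
  exact absurd h1 (not_lt.2 h5)

private lemma h97_co_val (A : ValuationSubring L) (hA : IsPl k A) (c : k) (hc : c ≠ 0) :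
    A.valuation (co k L c) = 1 := by
  refine le_antisymm ((A.valuation_le_one_iff _).2 (hA.2 c)) ?_
  by_contra h
  push Not at h
  exact hc (h97_co_zero A hA c ((ValuationSubring.mem_nonunits_iff (A := A)).2 h))

private lemma h97_co_sub (a b : k) : co k L (a - b) = co k L a - co k L b := by
  unfold co
  rw [map_sub, map_sub]

private lemma h97_co_one : co k L 1 = 1 := by
  unfold co
  rw [map_one, map_one]

private lemma h97_co_pow (a : k) (n : ℕ) : co k L (a ^ n) = co k L a ^ n := by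
  unfold co
  rw [map_pow, map_pow]

private lemma h97_co_mul (a b : k) : co k L (a * b) = co k L a * co k L b := by
  unfold co
  rw [map_mul, map_mul]

private lemma h97_co_fix (σ : L ≃ₐ[RatFunc k] L) (a : k) : σ (co k L a) = co k L a := by
  unfold co
  exact σ.commutes _

private lemma h97_co_ne (a : k) (ha : a ≠ 0) : co k L a ≠ 0 := by
  unfold co
  intro h
  rw [map_eq_zero, map_eq_zero] at h
  exact ha h

/-- uniformizers: valuations -/
private lemma h97_exp {A : ValuationSubring L} {π : L} (hπ : Unif A π) (y : L) (hy : y ≠ 0) :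
    ∃ n : ℤ, A.valuation y = A.valuation π ^ n := by
  obtain ⟨n, hn⟩ := hπ.2.2 y hy
  refine ⟨-n, ?_⟩
  rw [h97_un_iff, map_mul, map_zpow₀] at hn
  rw [zpow_neg]
  exact eq_inv_of_mul_eq_one_left hn

private lemma h97_pos {A : ValuationSubring L} {π : L} (hπ : Unif A π) : 0 < A.valuation π :=
  zero_lt_iff.2 ((A.valuation.ne_zero_iff).2 hπ.1)

private lemma h97_lt {A : ValuationSubring L} {π : L} (hπ : Unif A π) : A.valuation π < 1 :=
  (ValuationSubring.mem_nonunits_iff (A := A)).1 hπ.2.1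

private lemma h97_inj {A : ValuationSubring L} {π : L} (hπ : Unif A π) {a b : ℤ}
    (h : A.valuation π ^ a = A.valuation π ^ b) : a = b :=
  zpow_right_injective₀ (h97_pos hπ) (h97_lt hπ).ne h

/-- the valuation of the base field in terms of a local parameter -/
private lemma h97_base {A : ValuationSubring L} {w : RatFunc k} (hw : BasePar k A w)
    (a : RatFunc k) (ha : a ≠ 0) :
    ∃ n : ℤ, A.valuation (algebraMap (RatFunc k) L a) =
      A.valuation (algebraMap (RatFunc k) L w) ^ n := by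
  obtain ⟨n, h1, h2⟩ := hw.2.2 a ha
  have h0 : algebraMap (RatFunc k) L (a * w ^ n) ≠ 0 := by
    intro h
    rw [map_eq_zero] at h
    exact mul_ne_zero ha (zpow_ne_zero _ hw.1) h
  have h3 := (h97_un_iff A _).1 ⟨h0, h1, h2⟩
  refine ⟨-n, ?_⟩
  rw [map_mul, map_zpow₀, map_mul, map_zpow₀] at h3
  rw [zpow_neg]
  exact eq_inv_of_mul_eq_one_left h3

end h97aux

section local'
variable {p : ℕ} [Fact p.Prime] {k L : Type} [Field k] [IsAlgClosed k] [CharP k p] [Field L]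
  [Algebra (RatFunc k) L] [FiniteDimensional (RatFunc k) L] [IsGalois (RatFunc k) L]

/-- SR-L5a -/
theorem kummer_local {ℓ : ℕ} (hℓ : ℓ.Prime) (hℓp : ℓ ≠ p) (A : ValuationSubring L)
    (hA : IsPl k A) (w : RatFunc k) (hw : BasePar k A w) (s : L)
    (hs : s ^ ℓ = algebraMap (RatFunc k) L w) (σ : L ≃ₐ[RatFunc k] L) (hσ : σ • A = A)
    (hσs : σ s = s) :
    ∃ τ υ : L ≃ₐ[RatFunc k] L, τ • A = A ∧ υ • A = A ∧ σ = τ ^ ℓ * υ ∧ ∃ a : ℕ, υ ^ p ^ a = 1 := by
  classical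
  have hp : p.Prime := Fact.out
  obtain ⟨π, hπ⟩ := exists_unif (k := k) A hA
  obtain ⟨θ, hθ0, hθm, hθ1, hθ2⟩ := exists_theta (k := k) A hA π hπ
  set γ := A.valuation π with hγ
  have hγ0 : 0 < γ := h97_pos hπ
  have hγ1 : γ < 1 := h97_lt hπ
  have hs0 : s ≠ 0 := by
    intro h
    rw [h, zero_pow hℓ.ne_zero] at hs
    have := hw.1
    rw [eq_comm, map_eq_zero] at hs
    exact this hs
  -- valuation of `s`
  obtain ⟨m₀, hm₀⟩ := h97_exp hπ s hs0
  have hwv : A.valuation (algebraMap (RatFunc k) L w) = γ ^ (m₀ * ℓ) := by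
    rw [← hs, map_pow, hm₀, zpow_mul, zpow_natCast]
  have hwlt : A.valuation (algebraMap (RatFunc k) L w) < 1 :=
    (ValuationSubring.mem_nonunits_iff (A := A)).1 hw.2.1
  have hℓ0 : (0 : ℤ) < ℓ := by exact_mod_cast hℓ.pos
  have hm₀pos : 0 < m₀ := by
    by_contra h
    push Not at h
    have h1 : m₀ * ℓ ≤ 0 := mul_nonpos_of_nonpos_of_nonneg h hℓ0.le
    have h2 : (1 : A.ValueGroup) ≤ γ ^ (m₀ * ℓ) := by
      have h3 := (zpow_right_strictAnti₀ hγ0 hγ1).antitone h1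
      simpa using h3
    rw [hwv] at hwlt
    exact absurd hwlt (not_lt.2 h2)
  obtain ⟨m, rfl⟩ : ∃ m : ℕ, m₀ = m := ⟨m₀.toNat, (Int.toNat_of_nonneg hm₀pos.le).symm⟩
  have hmpos : 0 < m := by exact_mod_cast hm₀pos
  -- the decomposition group
  set D : Subgroup (L ≃ₐ[RatFunc k] L) := MulAction.stabilizer _ A with hD
  have hmem : ∀ τ : L ≃ₐ[RatFunc k] L, τ ∈ D ↔ τ • A = A := fun τ => MulAction.mem_stabilizer_iff
  have : Finite D := inferInstance
  have : Fintype D := Fintype.ofFinite D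
  let Θ : D →* kˣ := MonoidHom.mk' (fun d => Units.mk0 (θ d) (hθ0 d ((hmem _).1 d.2))) (by
    intro a b
    ext
    exact hθm a b ((hmem _).1 a.2) ((hmem _).1 b.2))
  have hΘ : ∀ d : D, ((Θ d : kˣ) : k) = θ d := fun d => rfl
  -- valuations of the conjugates of `π`
  have hconj : ∀ d : D, A.valuation ((d : L ≃ₐ[RatFunc k] L) π) = γ := by
    intro d
    have h1 := hθ1 d ((hmem _).1 d.2)
    have h2 := (ValuationSubring.mem_nonunits_iff (A := A)).1 h1
    have h3 := h97_co_val A hA (θ d) (hθ0 d ((hmem _).1 d.2))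
    have h4 : A.valuation ((d : L ≃ₐ[RatFunc k] L) π / π) = 1 := by
      have h5 : (d : L ≃ₐ[RatFunc k] L) π / π = co k L (θ d) +
          ((d : L ≃ₐ[RatFunc k] L) π / π - co k L (θ d)) := by ring
      rw [h5, A.valuation.map_add_eq_of_lt_left (by rw [h3]; exact h2)]
      exact h3
    rw [map_div₀, div_eq_one_iff_eq hγ0.ne'] at h4
    exact h4
  -- the norm
  set N : L := ∏ d : D, (d : L ≃ₐ[RatFunc k] L) π with hN
  have hN0 : N ≠ 0 := by
    rw [hN]
    refine Finset.prod_ne_zero_iff.2 fun d _ => ?_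
    intro h
    rw [map_eq_zero_iff _ (AlgEquiv.injective _)] at h
    exact hπ.1 h
  have hNfix : ∀ τ : L ≃ₐ[RatFunc k] L, τ • A = A → τ N = N := by
    intro τ hτ
    rw [hN, map_prod]
    refine Fintype.prod_equiv (Equiv.mulLeft (⟨τ, (hmem τ).2 hτ⟩ : D)) _ _ fun d => ?_
    rfl
  have hNv : A.valuation N = γ ^ (Fintype.card D) := by
    rw [hN, map_prod, Finset.prod_congr rfl fun d _ => hconj d, Finset.prod_const,
      Finset.card_univ]
  obtain ⟨a, ha0, ha⟩ := fixed_unit (k := k) A hA N hN0 hNfix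
  obtain ⟨j, hj⟩ := h97_base hw a ha0
  have hcard : (Fintype.card D : ℤ) = (m * ℓ) * (-j) := by
    apply h97_inj hπ
    rw [h97_un_iff, map_mul, hNv, hj, hwv] at ha
    rw [zpow_natCast, zpow_mul, zpow_neg]
    exact eq_inv_of_mul_eq_one_left ha
  obtain ⟨j', hj'⟩ : ∃ j' : ℕ, Fintype.card D = m * ℓ * j' := by
    have h1 : ((m * ℓ : ℕ) : ℤ) ∣ ((Fintype.card D : ℕ) : ℤ) := by
      rw [hcard]
      push_cast
      exact Dvd.intro _ rfl
    exact Int.natCast_dvd_natCast.1 h1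
  -- the kernel and the image of `Θ`
  have hker : IsPGroup p Θ.ker := by
    intro d
    have h1 : θ (d : D) = 1 := by
      have h2 : Θ (d : D) = 1 := d.2
      rw [← hΘ, h2]
      rfl
    have h3 := hθ1 ((d : D) : L ≃ₐ[RatFunc k] L) ((hmem _).1 (d : D).2)
    rw [h1, h97_co_one] at h3
    obtain ⟨a, ha⟩ := wild_pow (p := p) (k := k) A hA π hπ _ ((hmem _).1 (d : D).2) h3
    refine ⟨a, ?_⟩
    ext1
    ext1
    exact ha
  obtain ⟨b, hb⟩ := (IsPGroup.iff_card (p := p)).1 hker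
  have hcardD : Nat.card D = p ^ b * Nat.card Θ.range := by
    rw [← hb, ← Subgroup.index_ker, Subgroup.card_mul_index]
  rw [Nat.card_eq_fintype_card, hj'] at hcardD
  obtain ⟨a', m', hpm', hm'⟩ := Nat.exists_eq_pow_mul_and_not_dvd hmpos.ne' p hp.ne_one
  have hdvd : ℓ * m' ∣ Nat.card Θ.range := by
    have h1 : ℓ * m' ∣ p ^ b * Nat.card Θ.range := by
      rw [← hcardD, hm']
      exact ⟨p ^ a' * j', by ring⟩
    have h2 : Nat.Coprime (ℓ * m') (p ^ b) := by
      apply Nat.Coprime.pow_right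
      apply Nat.Coprime.mul_left
      · exact (Nat.coprime_primes hℓ hp).2 hℓp
      · exact (Nat.Prime.coprime_iff_not_dvd hp).2 hpm' |>.symm
    exact h2.dvd_of_dvd_mul_left h1
  -- `θ σ` is killed by `m'`
  have hσm : θ σ ^ m = 1 := by
    have h1 : Un A (s * π ^ (-(m : ℤ))) := by
      rw [h97_un_iff, map_mul, map_zpow₀, hm₀, ← hγ, ← zpow_add₀ hγ0.ne']
      simp
    have h2 := hθ2 σ hσ s (-(m : ℤ)) hs0 h1
    rw [hσs, div_self hs0, neg_neg, zpow_natCast] at h2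
    have h3 : (1 : L) - co k L (θ σ ^ m) = co k L (1 - θ σ ^ m) := by
      rw [h97_co_sub, h97_co_one]
    rw [h3] at h2
    have h4 := h97_co_zero A hA _ h2
    exact (sub_eq_zero.1 h4).symm
  have hσm' : θ σ ^ m' = 1 := by
    rw [hm'] at hσm
    have : ExpChar k p := ExpChar.prime hp
    exact (ExpChar.pow_prime_pow_mul_eq_one_iff p a' m' (θ σ)).1 hσm
  -- an `ℓ`-th root in the cyclic group
  obtain ⟨g, hg⟩ := IsCyclic.exists_generator (α := Θ.range)
  have hgo : orderOf g = Nat.card Θ.range := orderOf_eq_card_of_forall_mem_zpowers hg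
  obtain ⟨i, hi⟩ := Subgroup.mem_zpowers_iff.1 (hg ⟨Θ ⟨σ, (hmem σ).2 hσ⟩, ⟨_, rfl⟩⟩)
  have hi2 : g ^ (i * m') = 1 := by
    rw [zpow_mul, hi, zpow_natCast]
    ext
    exact hσm'
  have hi3 : (ℓ : ℤ) ∣ i := by
    have h1 := orderOf_dvd_iff_zpow_eq_one.2 hi2
    rw [hgo] at h1
    have h2 : ((ℓ * m' : ℕ) : ℤ) ∣ i * m' := (Int.natCast_dvd_natCast.2 hdvd).trans h1
    push_cast at h2
    have hm'0 : (m' : ℤ) ≠ 0 := by
      intro h
      apply hpm'
      have h3 : m' = 0 := by exact_mod_cast h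
      rw [h3]
      exact dvd_zero p
    exact Int.dvd_of_mul_dvd_mul_right hm'0 h2
  obtain ⟨i', rfl⟩ := hi3
  obtain ⟨d, hd⟩ := g.2
  have hτ : (((d ^ i' : D)) : L ≃ₐ[RatFunc k] L) • A = A := (hmem _).1 (d ^ i').2
  set τ : D := d ^ i' with hτdef
  set υ : D := (τ ^ ℓ)⁻¹ * ⟨σ, (hmem σ).2 hσ⟩ with hυdef
  refine ⟨τ, υ, hτ, (hmem _).1 υ.2, ?_, ?_⟩
  · rw [hυdef]
    push_cast
    rw [mul_inv_cancel_left]
  · have h1 : Θ υ = 1 := by
      rw [hυdef, map_mul, map_inv, map_pow, hτdef, map_zpow, hd]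
      have h2 : Θ ⟨σ, (hmem σ).2 hσ⟩ = (g : kˣ) ^ ((ℓ : ℤ) * i') := by
        have h3 := congrArg (fun x : Θ.range => (x : kˣ)) hi
        simp only [Subgroup.coe_zpow] at h3
        exact h3.symm
      rw [h2, mul_comm (ℓ : ℤ) i', zpow_mul, zpow_natCast]
      exact inv_mul_cancel _
    have h4 : θ (υ : L ≃ₐ[RatFunc k] L) = 1 := by
      rw [← hΘ, h1]
      rfl
    have h3 := hθ1 (υ : L ≃ₐ[RatFunc k] L) ((hmem _).1 υ.2)
    rw [h4, h97_co_one] at h3
    exact wild_pow (p := p) (k := k) A hA π hπ _ ((hmem _).1 υ.2) h3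

/-- SR-L5b -/
theorem kummer_nontriv {ℓ : ℕ} (hℓ : ℓ.Prime) (hℓp : ℓ ≠ p) (A : ValuationSubring L)
    (hA : IsPl k A) (w : RatFunc k) (hw : BasePar k A w) (s : L)
    (hs : s ^ ℓ = algebraMap (RatFunc k) L w) (ζ : k) (hζ : IsPrimitiveRoot ζ ℓ) :
    ∃ τ : L ≃ₐ[RatFunc k] L, τ • A = A ∧ τ s = co k L ζ * s := by
  classical
  have hs0 : s ≠ 0 := by
    intro h
    rw [h, zero_pow hℓ.ne_zero] at hs
    have := hw.1
    rw [eq_comm, map_eq_zero] at hs
    exact this hs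
  have hζL : IsPrimitiveRoot (co k L ζ) ℓ := by
    unfold co
    exact (hζ.map_of_injective (algebraMap k (RatFunc k)).injective).map_of_injective
      (algebraMap (RatFunc k) L).injective
  have : NeZero ℓ := ⟨hℓ.ne_zero⟩
  have hact : ∀ τ : L ≃ₐ[RatFunc k] L, ∃ i : ℕ, τ s = co k L ζ ^ i * s := by
    intro τ
    have h1 : (τ s / s) ^ ℓ = 1 := by
      rw [div_pow, ← map_pow, hs, AlgEquiv.commutes, ← hs, div_self (pow_ne_zero _ hs0)]
    obtain ⟨i, _, hi⟩ := hζL.eq_pow_of_pow_eq_one h1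
    refine ⟨i, ?_⟩
    rw [hi, div_mul_cancel₀ _ hs0]
  -- powers
  have hpow : ∀ (τ : L ≃ₐ[RatFunc k] L) (i : ℕ), τ s = co k L ζ ^ i * s → ∀ n : ℕ,
      (τ ^ n) s = co k L ζ ^ (i * n) * s := by
    intro τ i hi n
    induction n with
    | zero => simp
    | succ n ih =>
      rw [pow_succ, AlgEquiv.mul_apply, hi, map_mul, map_pow, h97_co_fix, ih, ← mul_assoc,
        ← pow_add]
      congr 2
      ring
  set D : Subgroup (L ≃ₐ[RatFunc k] L) := MulAction.stabilizer _ A with hD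
  have hmem : ∀ τ : L ≃ₐ[RatFunc k] L, τ ∈ D ↔ τ • A = A := fun τ => MulAction.mem_stabilizer_iff
  by_cases hall : ∀ τ : L ≃ₐ[RatFunc k] L, τ • A = A → τ s = s
  · exfalso
    obtain ⟨a, ha0, ha⟩ := fixed_unit (k := k) A hA s hs0 hall
    obtain ⟨n, hn⟩ := h97_base hw a ha0
    rw [h97_un_iff, map_mul, hn] at ha
    set W := A.valuation (algebraMap (RatFunc k) L w) with hW
    have hWlt : W < 1 := (ValuationSubring.mem_nonunits_iff (A := A)).1 hw.2.1
    have hsW : A.valuation s ^ ℓ = W := by rw [← map_pow, hs]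
    have hW0 : 0 < W := by
      rw [← hsW]
      exact pow_pos (zero_lt_iff.2 ((A.valuation.ne_zero_iff).2 hs0)) _
    have h1 : (A.valuation s * W ^ n) ^ ℓ = 1 := by rw [ha, one_pow]
    rw [mul_pow, hsW, ← zpow_natCast, ← zpow_mul] at h1
    have h2 : W ^ (1 + n * ℓ) = W ^ (0 : ℤ) := by
      rw [zpow_add₀ hW0.ne', zpow_one, zpow_zero]
      exact h1
    have h3 := zpow_right_injective₀ hW0 hWlt.ne h2
    have h4 : (ℓ : ℤ) ∣ 1 := ⟨-n, by linarith⟩
    have h5 := Int.natCast_dvd_natCast.1 (by exact_mod_cast h4 : ((ℓ : ℕ) : ℤ) ∣ ((1 : ℕ) : ℤ))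
    exact hℓ.one_lt.ne' (Nat.dvd_one.1 h5)
  · push Not at hall
    obtain ⟨τ, hτ, hτs⟩ := hall
    obtain ⟨i, hi⟩ := hact τ
    have hcop : Nat.Coprime i ℓ := by
      rw [Nat.coprime_comm, Nat.Prime.coprime_iff_not_dvd hℓ]
      rintro ⟨c, rfl⟩
      apply hτs
      rw [hi, pow_mul, hζL.pow_eq_one, one_pow, one_mul]
    obtain ⟨n, _, hn⟩ := Nat.exists_mul_mod_eq_one_of_coprime hcop hℓ.one_lt
    refine ⟨τ ^ n, (hmem _).1 (D.pow_mem ((hmem τ).2 hτ) n), ?_⟩
    rw [hpow τ i hi n]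
    congr 1
    have h1 : co k L ζ ^ (i * n) = co k L ζ ^ (i * n % ℓ) := by
      conv_lhs => rw [← Nat.div_add_mod (i * n) ℓ, pow_add, pow_mul, hζL.pow_eq_one, one_pow,
        one_mul]
    rw [h1, hn, pow_one]

/-- SR-L6 -/
theorem local_hom {ℓ : ℕ} (hℓ : ℓ.Prime) (hℓp : ℓ ≠ p) (A : ValuationSubring L)
    (hA : IsPl k A) (w : RatFunc k) (hw : BasePar k A w) (s : L)
    (hs : s ^ ℓ = algebraMap (RatFunc k) L w) (ζ : k) (hζ : IsPrimitiveRoot ζ ℓ)
    {G : Type} [Group G] (ρ : (L ≃ₐ[RatFunc k] L) →* G)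
    (hρ : ∀ σ : L ≃ₐ[RatFunc k] L, σ • A = A → ρ σ ^ ℓ = 1) :
    ∃ τ : L ≃ₐ[RatFunc k] L, τ • A = A ∧
      ∀ (σ : L ≃ₐ[RatFunc k] L) (e : ℕ), σ • A = A → σ s = co k L (ζ ^ e) * s →
        ρ σ = ρ τ ^ e := by
  classical
  have hp : p.Prime := Fact.out
  obtain ⟨τ, hτ, hτs⟩ := kummer_nontriv (p := p) hℓ hℓp A hA w hw s hs ζ hζ
  refine ⟨τ, hτ, ?_⟩
  intro σ e hσ hσs
  set D : Subgroup (L ≃ₐ[RatFunc k] L) := MulAction.stabilizer _ A with hD
  have hmem : ∀ τ : L ≃ₐ[RatFunc k] L, τ ∈ D ↔ τ • A = A := fun τ => MulAction.mem_stabilizer_iff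
  have hpow : ∀ n : ℕ, (τ ^ n) s = co k L (ζ ^ n) * s := by
    intro n
    induction n with
    | zero => simp [h97_co_one]
    | succ n ih =>
      rw [pow_succ, AlgEquiv.mul_apply, hτs, map_mul, h97_co_fix, ih, ← mul_assoc,
        ← h97_co_mul]
      congr 2
      ring
  set σ' : L ≃ₐ[RatFunc k] L := (τ ^ e)⁻¹ * σ with hσ'
  have hσ'D : σ' • A = A :=
    (hmem _).1 (D.mul_mem (D.inv_mem (D.pow_mem ((hmem τ).2 hτ) e)) ((hmem σ).2 hσ))
  have hσ's : σ' s = s := by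
    rw [hσ', AlgEquiv.mul_apply, hσs, ← hpow e, ← AlgEquiv.mul_apply, inv_mul_cancel]
    rfl
  obtain ⟨τ₁, υ, hτ₁, hυ, h1, a, ha⟩ := kummer_local (p := p) hℓ hℓp A hA w hw s hs σ' hσ'D hσ's
  have h2 : ρ υ = 1 := by
    have h3 : ρ υ ^ ℓ = 1 := hρ υ hυ
    have h4 : ρ υ ^ p ^ a = 1 := by rw [← map_pow, ha, map_one]
    have h5 : Nat.Coprime ℓ (p ^ a) := Nat.Coprime.pow_right _ ((Nat.coprime_primes hℓ hp).2 hℓp)
    have h6 := Nat.dvd_gcd (orderOf_dvd_of_pow_eq_one h3) (orderOf_dvd_of_pow_eq_one h4)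
    rw [h5] at h6
    exact orderOf_eq_one_iff.1 (Nat.dvd_one.1 h6)
  have h7 : ρ σ' = 1 := by
    rw [h1, map_mul, map_pow, hρ τ₁ hτ₁, one_mul, h2]
  have h8 : σ = τ ^ e * σ' := by rw [hσ', mul_inv_cancel_left]
  rw [h8, map_mul, h7, mul_one, map_pow]

end local'

end Pool.Agent.Helper54.SR
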